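import Pool.Agent.W275.ND.Stm

/-!
# No periodic point near the special Henon map
-/

set_option autoImplicit false
set_option linter.unusedSectionVars false

namespace Pool.Agent.W469.ND.Hno

open Pool.Agent.W275.ND

section

variable {A : Type} [CommRing A] [IsDomain A] [IsDiscreteValuationRing A] {K : Type} [Field K]
  [Algebra A K] [IsFractionRing A K]

/-- valuation at least `a` -/
def Ge (π : A) (a : ℤ) (x : K) : Prop := ∃ u : A, x = (algebraMap A K π) ^ a * algebraMap A K u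

/-- valuation `a` -/
def Eqv (π : A) (a : ℤ) (x : K) : Prop :=
  ∃ u : A, IsUnit u ∧ x = (algebraMap A K π) ^ a * algebraMap A K u

variable {π : A}

theorem P_ne (hπ : Irreducible π) : algebraMap A K π ≠ 0 := by
  intro h
  exact hπ.ne_zero ((IsFractionRing.injective A K) (by rw [h, map_zero]))

theorem Eqv.ge {a : ℤ} {x : K} (h : Eqv π a x) : Ge π a x := by
  obtain ⟨u, _, hu⟩ := h
  exact ⟨u, hu⟩

theorem Ge.of_le (hπ : Irreducible π) {a b : ℤ} {x : K} (hab : a ≤ b) (h : Ge π b x) :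
    Ge π a x := by
  obtain ⟨u, hu⟩ := h
  obtain ⟨n, hn⟩ := Int.eq_ofNat_of_zero_le (sub_nonneg.2 hab)
  refine ⟨π ^ n * u, ?_⟩
  have h1 : b = a + (n : ℤ) := by omega
  rw [hu, h1, zpow_add₀ (P_ne hπ), zpow_natCast, map_mul, map_pow, mul_assoc]

theorem Ge.zero (a : ℤ) : Ge π a (0 : K) := ⟨0, by rw [map_zero, mul_zero]⟩

theorem Ge.add {a : ℤ} {x y : K} (hx : Ge π a x) (hy : Ge π a y) : Ge π a (x + y) := by
  obtain ⟨u, hu⟩ := hx
  obtain ⟨w, hw⟩ := hy
  exact ⟨u + w, by rw [hu, hw, map_add, mul_add]⟩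

theorem Ge.mul (hπ : Irreducible π) {a b : ℤ} {x y : K} (hx : Ge π a x) (hy : Ge π b y) :
    Ge π (a + b) (x * y) := by
  obtain ⟨u, hu⟩ := hx
  obtain ⟨w, hw⟩ := hy
  refine ⟨u * w, ?_⟩
  rw [hu, hw, map_mul, zpow_add₀ (P_ne hπ)]
  ring

theorem Ge.sum {ι : Type} (s : Finset ι) {a : ℤ} {f : ι → K} (h : ∀ i ∈ s, Ge π a (f i)) :
    Ge π a (∑ i ∈ s, f i) := by
  classical
  induction s using Finset.induction_on with
  | empty => simpa using Ge.zero (K := K) a
  | insert i s hi ih =>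
    rw [Finset.sum_insert hi]
    exact (h i (Finset.mem_insert_self _ _)).add
      (ih fun j hj => h j (Finset.mem_insert_of_mem hj))

theorem Eqv.mul (hπ : Irreducible π) {a b : ℤ} {x y : K} (hx : Eqv π a x) (hy : Eqv π b y) :
    Eqv π (a + b) (x * y) := by
  obtain ⟨u, hu', hu⟩ := hx
  obtain ⟨w, hw', hw⟩ := hy
  refine ⟨u * w, hu'.mul hw', ?_⟩
  rw [hu, hw, map_mul, zpow_add₀ (P_ne hπ)]
  ring

theorem Eqv.one : Eqv π 0 (1 : K) := ⟨1, isUnit_one, by simp⟩

theorem Eqv.pow (hπ : Irreducible π) {a : ℤ} {x : K} (hx : Eqv π a x) (n : ℕ) :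
    Eqv π ((n : ℤ) * a) (x ^ n) := by
  induction n with
  | zero => simpa using (Eqv.one : Eqv π 0 (1 : K))
  | succ n ih =>
    rw [pow_succ]
    have h1 : (((n + 1 : ℕ) : ℤ)) * a = (n : ℤ) * a + a := by push_cast; ring
    rw [h1]
    exact ih.mul hπ hx

theorem Eqv.prod (hπ : Irreducible π) {ι : Type} (s : Finset ι) {f : ι → K}
    (h : ∀ i ∈ s, Eqv π 0 (f i)) : Eqv π 0 (∏ i ∈ s, f i) := by
  classical
  induction s using Finset.induction_on with
  | empty => simpa using (Eqv.one : Eqv π 0 (1 : K))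
  | insert i s hi ih =>
    rw [Finset.prod_insert hi]
    have := (h i (Finset.mem_insert_self _ _)).mul hπ
      (ih fun j hj => h j (Finset.mem_insert_of_mem hj))
    simpa using this

theorem unit_add (hπ : Irreducible π) {u w : A} (hu : IsUnit u) (hw : π ∣ w) :
    IsUnit (u + w) := by
  by_contra hcon
  have h1 : u + w ∈ IsLocalRing.maximalIdeal A := (IsLocalRing.mem_maximalIdeal _).2 hcon
  have h2 : w ∈ IsLocalRing.maximalIdeal A := by
    obtain ⟨r, rfl⟩ := hw
    exact Ideal.mul_mem_right _ _ ((IsLocalRing.mem_maximalIdeal _).2 hπ.not_isUnit)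
  have h3 : u ∈ IsLocalRing.maximalIdeal A := by
    have := Ideal.sub_mem _ h1 h2
    rwa [add_sub_cancel_right] at this
  exact (IsLocalRing.mem_maximalIdeal _).1 h3 hu

theorem Eqv.add (hπ : Irreducible π) {a : ℤ} {x y : K} (hx : Eqv π a x) (hy : Ge π (a + 1) y) :
    Eqv π a (x + y) := by
  obtain ⟨u, hu', hu⟩ := hx
  obtain ⟨w, hw⟩ := hy
  refine ⟨u + π * w, unit_add hπ hu' (Dvd.intro _ rfl), ?_⟩
  rw [hu, hw, map_add, map_mul, zpow_add₀ (P_ne hπ), zpow_one]
  ring

theorem Eqv.le (hπ : Irreducible π) {a b : ℤ} {x : K} (hx : Eqv π a x) (hy : Ge π b x) :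
    b ≤ a := by
  by_contra hcon
  obtain ⟨u, hu', hu⟩ := hx
  obtain ⟨w, hw⟩ := hy
  obtain ⟨n, hn⟩ := Int.eq_ofNat_of_zero_le (a := b - a - 1) (by omega)
  have h1 : b = a + ((n + 1 : ℕ) : ℤ) := by push_cast; omega
  rw [hu, h1, zpow_add₀ (P_ne hπ), zpow_natCast, mul_assoc] at hw
  have h2 := mul_left_cancel₀ (zpow_ne_zero a (P_ne hπ)) hw
  rw [← map_pow, ← map_mul] at h2
  have h3 := IsFractionRing.injective A K h2
  apply hπ.not_isUnit
  refine isUnit_of_dvd_unit ?_ hu'
  rw [h3, pow_succ]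
  exact ⟨π ^ n * w, by ring⟩

theorem exists_Eqv (hπ : Irreducible π) {x : K} (hx : x ≠ 0) : ∃ a, Eqv π a x := by
  obtain ⟨r, s, hs, rfl⟩ := IsFractionRing.div_surjective (A := A) x
  have hs0 : s ≠ 0 := nonZeroDivisors.ne_zero hs
  have hr0 : r ≠ 0 := by
    rintro rfl
    simp at hx
  obtain ⟨n, u, hn⟩ := IsDiscreteValuationRing.eq_unit_mul_pow_irreducible hr0 hπ
  obtain ⟨m, w, hm⟩ := IsDiscreteValuationRing.eq_unit_mul_pow_irreducible hs0 hπ
  refine ⟨(n : ℤ) - m, (u * w⁻¹ : Aˣ), Units.isUnit _, ?_⟩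
  have hP := P_ne (K := K) hπ
  have hw : algebraMap A K (w : A) ≠ 0 := by
    intro h
    exact w.ne_zero ((IsFractionRing.injective A K) (by rw [h, map_zero]))
  have hw2 : algebraMap A K ((w⁻¹ : Aˣ) : A) = (algebraMap A K (w : A))⁻¹ :=
    eq_inv_of_mul_eq_one_left (by rw [← map_mul, Units.inv_mul, map_one])
  rw [hn, hm, zpow_sub₀ hP, zpow_natCast, zpow_natCast, Units.val_mul, map_mul, map_mul, map_mul,
    map_pow, map_pow, hw2]
  field_simp

theorem sum_eqv (hπ : Irreducible π) {ι : Type} [Fintype ι] [DecidableEq ι] {f : ι → K} {c : ℤ}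
    (j : ι) (hj : Eqv π c (f j)) (h : ∀ i, i ≠ j → Ge π (c + 1) (f i)) :
    Eqv π c (∑ i, f i) := by
  rw [← Finset.add_sum_erase Finset.univ f (Finset.mem_univ j)]
  exact hj.add hπ (Ge.sum _ fun i hi => h i (Finset.ne_of_mem_erase hi))

end

theorem main : S_hno := by
  intro A _ _ _ K _ _ _ π t hπ hπt d hd hdt T _ v b hb hbs y hy hper
  obtain ⟨N, hN, hper⟩ := hper
  have ht0 : t ≠ 0 := by
    rintro rfl
    exact hdt (dvd_zero _)
  obtain ⟨e, u, heu⟩ := IsDiscreteValuationRing.eq_unit_mul_pow_irreducible ht0 hπ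
  have he1 : 1 ≤ e := by
    by_contra hcon
    have h0 : e = 0 := by omega
    rw [h0, pow_zero, mul_one] at heu
    exact hπ.not_isUnit (isUnit_of_dvd_unit hπt (heu ▸ u.isUnit))
  have hed : e < d := by
    by_contra hcon
    apply hdt
    rw [heu]
    exact Dvd.dvd.mul_left (pow_dvd_pow _ (by omega)) _
  set Tt : K := algebraMap A K t with hTt
  have hT : Eqv π (e : ℤ) Tt := by
    refine ⟨u, u.isUnit, ?_⟩
    rw [hTt, heu, map_mul, map_pow, zpow_natCast, mul_comm]
  have hTne : Tt ≠ 0 := by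
    intro h
    exact ht0 ((IsFractionRing.injective A K) (by rw [map_zero]; exact h))
  have hP := P_ne (K := K) hπ
  -- the three kinds of coefficients
  have k1 : ∀ i, spH t d T i = t → Eqv π 0 (v i) := by
    intro i hi
    obtain ⟨r, hr⟩ := hbs i
    have h1 : Tt * v i = Tt * (1 + Tt * algebraMap A K r) := by
      rw [← hb i, sub_eq_iff_eq_add.1 hr, hi]
      rw [map_add, map_mul, map_pow]
      ring
    have h2 := mul_left_cancel₀ hTne h1
    refine ⟨1 + t * r, unit_add hπ isUnit_one (hπt.mul_right _), ?_⟩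
    rw [h2, zpow_zero, one_mul, map_add, map_one, map_mul]
  have k2 : ∀ i, spH t d T i = 1 → Eqv π (-(e : ℤ)) (v i) := by
    intro i hi
    obtain ⟨r, hr⟩ := hbs i
    refine ⟨((u⁻¹ : Aˣ) : A) * (1 + t ^ 2 * r), (Units.isUnit _).mul
      (unit_add hπ isUnit_one ((hπt.trans (dvd_pow_self _ (by norm_num))).mul_right _)), ?_⟩
    apply mul_left_cancel₀ hTne
    rw [← hb i, sub_eq_iff_eq_add.1 hr, hi, zpow_neg, zpow_natCast]
    have h3 : Tt = algebraMap A K (u : A) * (algebraMap A K π) ^ e := by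
      rw [hTt, heu, map_mul, map_pow]
    have h4 : algebraMap A K (u : A) * algebraMap A K ((u⁻¹ : Aˣ) : A) = 1 := by
      rw [← map_mul, Units.mul_inv, map_one]
    rw [h3, map_mul, map_add, map_add, map_mul, map_one]
    have h5 : (algebraMap A K π) ^ e ≠ 0 := pow_ne_zero _ hP
    have h6 : algebraMap A K (u : A) * (algebraMap A K π) ^ e *
        (((algebraMap A K π) ^ e)⁻¹ * (algebraMap A K ((u⁻¹ : Aˣ) : A) *
          (1 + algebraMap A K (t ^ 2) * algebraMap A K r))) =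
        (algebraMap A K (u : A) * algebraMap A K ((u⁻¹ : Aˣ) : A)) *
          ((algebraMap A K π) ^ e * ((algebraMap A K π) ^ e)⁻¹) *
          (1 + algebraMap A K (t ^ 2) * algebraMap A K r) := by ring
    rw [h6, h4, mul_inv_cancel₀ h5]
    ring
  have k3 : ∀ i, spH t d T i = 0 → Ge π (e : ℤ) (v i) := by
    intro i hi
    obtain ⟨r, hr⟩ := hbs i
    have h1 : Tt * v i = Tt * (Tt * algebraMap A K r) := by
      rw [← hb i, sub_eq_iff_eq_add.1 hr, hi]
      rw [map_add, map_mul, map_pow, map_zero]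
      ring
    have h2 := mul_left_cancel₀ hTne h1
    rw [h2]
    have h3 : Ge π (0 : ℤ) (algebraMap A K r) := ⟨r, by rw [zpow_zero, one_mul]⟩
    simpa using hT.ge.mul hπ h3
  have hlast : Eqv π 0 (v (Sum.inl (Fin.last d))) := k1 _ (by simp [spH])
  have h0ne : (0 : Fin (d + 1)) ≠ Fin.last d := by
    intro h
    have := congrArg Fin.val h
    simp at this
    omega
  have hzero : Eqv π (-(e : ℤ)) (v (Sum.inl 0)) := k2 _ (by simp [spH, h0ne])
  have hmid : ∀ i : Fin (d + 1), i ≠ Fin.last d → i ≠ 0 → Ge π (e : ℤ) (v (Sum.inl i)) :=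
    fun i h1 h2 => k3 _ (by simp [spH, h1, h2])
  have hdel : Ge π (e : ℤ) (v (Sum.inr none)) := k3 _ rfl
  have hm : Eqv π 0 (∏ s : T, v (Sum.inr (some s))) := Eqv.prod hπ _ fun s _ => k1 _ rfl
  -- minimal valuation
  have hper' : Function.Periodic y N := hper
  have hex : ∃ s, y s ≠ 0 := by
    by_contra hcon
    push Not at hcon
    have h1 := hy 0
    rw [hcon, hcon, hcon] at h1
    rw [Finset.sum_eq_single (0 : Fin (d + 1))] at h1
    · simp only [Fin.val_zero, pow_zero, mul_one, mul_zero, sub_zero] at h1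
      obtain ⟨w, hw', hw⟩ := hzero
      rw [← h1] at hw
      rcases mul_eq_zero.1 hw.symm with h | h
      · exact zpow_ne_zero _ hP h
      · have : w = 0 := (IsFractionRing.injective A K) (by rw [h, map_zero])
        rw [this] at hw'
        exact not_isUnit_zero hw'
    · intro i _ hi
      have : (i : ℕ) ≠ 0 := fun h => hi (Fin.ext h)
      rw [zero_pow this, mul_zero]
    · intro h
      exact absurd (Finset.mem_univ _) h
  have hchoice : ∀ s, ∃ a : ℤ, y s ≠ 0 → Eqv π a (y s) := by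
    intro s
    by_cases h : y s = 0
    · exact ⟨0, fun h' => absurd h h'⟩
    · obtain ⟨a, ha⟩ := exists_Eqv hπ h
      exact ⟨a, fun _ => ha⟩
  choose w hw using hchoice
  classical
  obtain ⟨s1, hs1⟩ := hex
  obtain ⟨s0, hs0, hmin⟩ := Finset.exists_min_image
    ((Finset.range N).filter fun s => y s ≠ 0) w ⟨s1 % N, by
      rw [Finset.mem_filter, Finset.mem_range]
      refine ⟨Nat.mod_lt _ hN, ?_⟩
      rw [hper'.map_mod_nat]
      exact hs1⟩
  rw [Finset.mem_filter] at hs0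
  set a := w s0 with ha
  have hya : Eqv π a (y s0) := hw s0 hs0.2
  have hge : ∀ s, Ge π a (y s) := by
    intro s
    by_cases h : y s = 0
    · rw [h]
      exact Ge.zero a
    · have h1 : y (s % N) = y s := hper'.map_mod_nat s
      have h2 : y (s % N) ≠ 0 := by rw [h1]; exact h
      have h3 := hmin (s % N) (by
        rw [Finset.mem_filter, Finset.mem_range]
        exact ⟨Nat.mod_lt _ hN, h2⟩)
      have h4 := (hw (s % N) h2).ge
      rw [h1] at h4
      exact h4.of_le hπ h3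
  -- the recursion at the index of minimal valuation
  set n1 := s0 + N - 1 with hn1
  have hn1' : n1 + 1 = s0 + N := by omega
  have hyn : y (n1 + 1) = y s0 := by rw [hn1', hper]
  have hrec := hy n1
  rw [hyn] at hrec
  have hF : Ge π a (∑ i : Fin (d + 1), v (Sum.inl i) * y s0 ^ (i : ℕ)) := by
    have h1 : ∑ i : Fin (d + 1), v (Sum.inl i) * y s0 ^ (i : ℕ) =
        (∏ s : T, v (Sum.inr (some s))) * y (n1 + 2) + v (Sum.inr none) * y n1 := by
      rw [hrec]
      ring
    rw [h1]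
    have h2 : Ge π (0 + a) ((∏ s : T, v (Sum.inr (some s))) * y (n1 + 2)) :=
      hm.ge.mul hπ (hge _)
    have h3 : Ge π ((e : ℤ) + a) (v (Sum.inr none) * y n1) := hdel.mul hπ (hge _)
    rw [zero_add] at h2
    exact h2.add (h3.of_le hπ (by omega))
  have f_last : Eqv π ((d : ℤ) * a) (v (Sum.inl (Fin.last d)) * y s0 ^ ((Fin.last d : Fin (d + 1)) : ℕ)) := by
    have := hlast.mul hπ (hya.pow hπ d)
    simpa using this
  have f_zero : Eqv π (-(e : ℤ)) (v (Sum.inl 0) * y s0 ^ ((0 : Fin (d + 1)) : ℕ)) := by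
    simpa using hzero
  have f_mid : ∀ i : Fin (d + 1), i ≠ Fin.last d → i ≠ 0 →
      Ge π ((e : ℤ) + ((i : ℕ) : ℤ) * a) (v (Sum.inl i) * y s0 ^ (i : ℕ)) := fun i h1 h2 =>
    (hmid i h1 h2).mul hπ (hya.pow hπ (i : ℕ)).ge
  have hilt : ∀ i : Fin (d + 1), i ≠ Fin.last d → ((i : ℕ) : ℤ) + 1 ≤ d := by
    intro i hi
    have h1 : (i : ℕ) ≠ d := fun h => hi (Fin.ext h)
    have h2 := i.2
    omega
  have hipos : ∀ i : Fin (d + 1), i ≠ 0 → 1 ≤ ((i : ℕ) : ℤ) := by
    intro i hi
    have h1 : (i : ℕ) ≠ 0 := fun h => hi (Fin.ext h)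
    omega
  have hdZ : (2 : ℤ) ≤ d := by exact_mod_cast hd
  have heZ : (1 : ℤ) ≤ e := by exact_mod_cast he1
  have hedZ : (e : ℤ) < d := by exact_mod_cast hed
  rcases lt_trichotomy ((d : ℤ) * a) (-(e : ℤ)) with hlt | heq | hgt
  · have ha0 : a < 0 := by
      by_contra hcon
      push Not at hcon
      nlinarith
    have h1 : Eqv π ((d : ℤ) * a) (∑ i : Fin (d + 1), v (Sum.inl i) * y s0 ^ (i : ℕ)) := by
      refine sum_eqv hπ (Fin.last d) f_last fun i hi => ?_
      by_cases hi0 : i = 0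
      · subst hi0
        exact f_zero.ge.of_le hπ (by omega)
      · refine (f_mid i hi hi0).of_le hπ ?_
        have := hilt i hi
        nlinarith
    have h2 := h1.le hπ hF
    nlinarith
  · rcases lt_or_ge a 0 with h | h
    · nlinarith
    · nlinarith
  · have h1 : Eqv π (-(e : ℤ)) (∑ i : Fin (d + 1), v (Sum.inl i) * y s0 ^ (i : ℕ)) := by
      refine sum_eqv hπ 0 f_zero fun i hi => ?_
      by_cases hil : i = Fin.last d
      · subst hil
        exact f_last.ge.of_le hπ (by omega)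
      · refine (f_mid i hil hi).of_le hπ ?_
        have h3 := hilt i hil
        have h4 := hipos i hi
        rcases lt_or_ge a 0 with h | h
        · nlinarith
        · nlinarith
    have h2 := h1.le hπ hF
    nlinarith

end Pool.Agent.W469.ND.Hno
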